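import Mathlib
import Pool.Agent.H48.BSDefs
import Pool.Agent.H48.BS3

set_option autoImplicit false

namespace Pool.Agent.Results.MP_0f6055_nt.NotRegular

open Pool.Agent.H48.BSDefs

theorem result (r : ℕ) (hr : 2 ≤ r) (k : ℕ) (hk : 2 ≤ k) : ¬ Regular k fun n => (hz r n : ℤ) :=
  Pool.Agent.H48.BS.not_regular hr hk

end Pool.Agent.Results.MP_0f6055_nt.NotRegular
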